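import Pool.Agent.H55.BQ.Targets

/-!
# MP_bacf0e_co, row BRC (board bpq): the number of branches
-/

set_option autoImplicit false

namespace Pool.Agent.H38.BPQ

open Pool.Agent.H55.BP Pool.Agent.H55.BQ Finset

open Classical in
/-- the middle elements of a finite set -/
noncomputable def mid {n : ℕ} (D : Finset (Fin n)) : Finset (Fin n) :=
  D.filter fun ρ => (∃ x ∈ D, x < ρ) ∧ (∃ y ∈ D, ρ < y)

theorem mid_small {n : ℕ} (D : Finset (Fin n)) (h : D.card ≤ 2) : mid D = ∅ := by
  rw [Finset.eq_empty_iff_forall_notMem]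
  intro ρ hρ
  obtain ⟨h1, ⟨x, hx, hxρ⟩, ⟨y, hy, hρy⟩⟩ := Finset.mem_filter.1 hρ
  have h2 : ({x, ρ, y} : Finset (Fin n)) ⊆ D := by
    intro z hz
    simp only [Finset.mem_insert, Finset.mem_singleton] at hz
    rcases hz with rfl | rfl | rfl
    · exact hx
    · exact h1
    · exact hy
  have h3 : ({x, ρ, y} : Finset (Fin n)).card = 3 :=
    Finset.card_eq_three.2 ⟨x, ρ, y, hxρ.ne, (hxρ.trans hρy).ne, hρy.ne, rfl⟩
  have h4 := Finset.card_le_card h2
  omega

theorem card_mid {n : ℕ} (D : Finset (Fin n)) (h : 2 ≤ D.card) : (mid D).card + 2 = D.card := by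
  have hne : D.Nonempty := Finset.card_pos.1 (by omega)
  have hlt : D.min' hne < D.max' hne := Finset.min'_lt_max'_of_card D (by omega)
  have h1 : mid D = (D.erase (D.min' hne)).erase (D.max' hne) := by
    ext ρ
    simp only [mid, Finset.mem_filter, Finset.mem_erase]
    constructor
    · rintro ⟨h1, ⟨x, hx, hxρ⟩, ⟨y, hy, hρy⟩⟩
      refine ⟨?_, ?_, h1⟩
      · intro h2
        have := Finset.le_max' D y hy
        rw [← h2] at this
        exact absurd hρy (not_lt.2 this)
      · intro h2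
        have := Finset.min'_le D x hx
        rw [← h2] at this
        exact absurd hxρ (not_lt.2 this)
    · rintro ⟨h1, h2, h3⟩
      exact ⟨h3, ⟨_, D.min'_mem hne, lt_of_le_of_ne (Finset.min'_le D ρ h3) (Ne.symm h2)⟩,
        ⟨_, D.max'_mem hne, lt_of_le_of_ne (Finset.le_max' D ρ h3) h1⟩⟩
  rw [h1, Finset.card_erase_of_mem, Finset.card_erase_of_mem (D.min'_mem hne)]
  · omega
  · exact Finset.mem_erase.2 ⟨hlt.ne', D.max'_mem hne⟩

open Classical in
/-- the directions from `g` to the points `E b`, `b ∈ S` -/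
noncomputable def dirs {n : ℕ} (T : LT n) {ι : Type} (E : ι → T.V) (S : Finset ι) (g : T.V) :
    Finset (Fin n) :=
  univ.filter fun d => ∃ b ∈ S, T.dir g (E b) = some d

theorem mem_dirs {n : ℕ} {T : LT n} {ι : Type} {E : ι → T.V} {S : Finset ι} {g : T.V} {d : Fin n} :
    d ∈ dirs T E S g ↔ ∃ b ∈ S, T.dir g (E b) = some d := by
  simp [dirs]

theorem mids_eq {n : ℕ} (T : LT n) {ι : Type} (E : ι → T.V) (S : Finset ι) (g : T.V) :
    mids T E S g = (mid (dirs T E S g) : Set (Fin n)) := by
  ext ρ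
  simp only [mid, Finset.coe_filter, Set.mem_ofPred_eq, mem_dirs]
  constructor
  · rintro ⟨a, ha, b, hb, c, hc, x, y, h1, h2, h3, h4, h5⟩
    exact ⟨⟨b, hb, h2⟩, ⟨x, ⟨a, ha, h1⟩, h4⟩, ⟨y, ⟨c, hc, h3⟩, h5⟩⟩
  · rintro ⟨⟨b, hb, h2⟩, ⟨x, ⟨a, ha, h1⟩, h4⟩, ⟨y, ⟨c, hc, h3⟩, h5⟩⟩
    exact ⟨a, ha, b, hb, c, hc, x, y, h1, h2, h3, h4, h5⟩

theorem dirs_same {n : ℕ} (T : LT n) {ι : Type} (E : ι → T.V) (S : Finset ι) (c : T.V)
    (h : ∀ b ∈ S, ∀ b' ∈ S, T.dir c (E b) = T.dir c (E b')) : (dirs T E S c).card ≤ 1 := by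
  rw [Finset.card_le_one]
  intro x hx y hy
  obtain ⟨b, hb, h1⟩ := mem_dirs.1 hx
  obtain ⟨b', hb', h2⟩ := mem_dirs.1 hy
  have := h b hb b' hb'
  rw [h1, h2] at this
  exact Option.some.inj this

theorem dirs_insert {n : ℕ} (T : LT n) {ι : Type} [DecidableEq ι] (E : ι → T.V) (S : Finset ι)
    (a : ι) (c : T.V) : dirs T E (insert a S) c = dirs T E {a} c ∪ dirs T E S c := by
  ext d
  simp only [Finset.mem_union, mem_dirs, Finset.mem_insert, Finset.mem_singleton]
  constructor
  · rintro ⟨b, rfl | hb, h1⟩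
    · exact Or.inl ⟨b, rfl, h1⟩
    · exact Or.inr ⟨b, hb, h1⟩
  · rintro (⟨b, rfl, h1⟩ | ⟨b, hb, h1⟩)
    · exact ⟨b, Or.inl rfl, h1⟩
    · exact ⟨b, Or.inr hb, h1⟩

theorem br_fiber {n : ℕ} (T : LT n) {ι : Type} (E : ι → T.V) (S : Finset ι) (g : T.V) :
    {p | p ∈ Br T E S ∧ p.1 = g} = (fun ρ : Fin n => (g, ρ)) '' (mid (dirs T E S g) : Set (Fin n)) := by
  ext ⟨c, ρ⟩
  simp only [Br, Set.mem_ofPred_eq, Set.mem_image, Prod.mk.injEq]
  constructor
  · rintro ⟨h1, rfl⟩
    exact ⟨ρ, by rw [← mids_eq]; exact h1, rfl, rfl⟩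
  · rintro ⟨ρ', h1, rfl, rfl⟩
    exact ⟨by rw [mids_eq]; exact h1, rfl⟩

theorem br_split {n : ℕ} (T : LT n) {ι : Type} (E : ι → T.V) (S : Finset ι) (g : T.V)
    (hf : {p | p ∈ Br T E S ∧ p.1 ≠ g}.Finite) :
    (Br T E S).Finite ∧
      (Br T E S).ncard = {p | p ∈ Br T E S ∧ p.1 ≠ g}.ncard + (mid (dirs T E S g)).card := by
  have h1 : Br T E S = {p | p ∈ Br T E S ∧ p.1 ≠ g} ∪ {p | p ∈ Br T E S ∧ p.1 = g} := by
    ext p
    simp only [Set.mem_union, Set.mem_ofPred_eq]
    tauto
  have h2 : ({p | p ∈ Br T E S ∧ p.1 = g} : Set (T.V × Fin n)).Finite := by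
    rw [br_fiber]
    exact (Finset.finite_toSet _).image _
  have h3 : {p | p ∈ Br T E S ∧ p.1 = g}.ncard = (mid (dirs T E S g)).card := by
    rw [br_fiber, Set.ncard_image_of_injective _ (fun x y h => (Prod.mk.injEq _ _ _ _ ▸ h).2),
      Set.ncard_coe_finset]
  have h4 : Disjoint {p | p ∈ Br T E S ∧ p.1 ≠ g} {p | p ∈ Br T E S ∧ p.1 = g} := by
    rw [Set.disjoint_left]
    rintro p ⟨_, h5⟩ ⟨_, h6⟩
    exact h5 h6
  refine ⟨by rw [h1]; exact hf.union h2, ?_⟩
  conv_lhs => rw [h1]
  rw [Set.ncard_union_eq h4 hf h2, h3]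

theorem pf_BRC (hGAT : T_GAT) : T_BRC := by
  intro n T ι _ E S lf' hleaf
  classical
  induction S using Finset.induction_on with
  | empty =>
    have h1 : Br T E (∅ : Finset ι) = ∅ := by
      rw [Set.eq_empty_iff_forall_notMem]
      rintro p ⟨a, ha, _⟩
      exact absurd ha (Finset.notMem_empty a)
    rw [h1]
    simp
  | insert a S ha ih =>
    have hl1 : ∀ b ∈ S, ∀ b' ∈ S, b ≠ b' → T.dir (E b) (E b') = some (lf' b) :=
      fun b hb b' hb' => hleaf b (Finset.mem_insert_of_mem hb) b' (Finset.mem_insert_of_mem hb')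
    obtain ⟨ihf, ihn⟩ := ih hl1
    have hcard : (insert a S).card = S.card + 1 := Finset.card_insert_of_notMem ha
    by_cases h2 : 2 ≤ S.card
    · obtain ⟨g, δ, hδ, hS, ⟨b, hb, b', hb', hbb⟩, hrest⟩ := hGAT T E S a lf' ha h2 hleaf
      -- off the gate
      have hoff : ∀ c, c ≠ g → mids T E (insert a S) c = mids T E S c := by
        intro c hc
        rw [mids_eq, mids_eq]
        rcases hrest c hc with ⟨b, hb, h3⟩ | h3
        · have h4 : dirs T E (insert a S) c = dirs T E S c := by
            rw [dirs_insert]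
            apply Finset.union_eq_right.2
            intro d hd
            obtain ⟨b1, hb1, h5⟩ := mem_dirs.1 hd
            rw [Finset.mem_singleton] at hb1
            subst hb1
            exact mem_dirs.2 ⟨b, hb, by rw [← h3]; exact h5⟩
          rw [h4]
        · have h4 : (dirs T E S c).card ≤ 1 := dirs_same T E S c h3
          have h5 : (dirs T E {a} c).card ≤ 1 := dirs_same T E {a} c (by
            intro b hb b' hb'
            rw [Finset.mem_singleton] at hb hb'
            rw [hb, hb'])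
          have h6 : (dirs T E (insert a S) c).card ≤ 2 := by
            rw [dirs_insert]
            exact (Finset.card_union_le _ _).trans (by omega)
          rw [mid_small _ h6, mid_small _ (by omega : (dirs T E S c).card ≤ 2)]
      have hoff2 : {p | p ∈ Br T E (insert a S) ∧ p.1 ≠ g} = {p | p ∈ Br T E S ∧ p.1 ≠ g} := by
        ext p
        simp only [Br, Set.mem_ofPred_eq]
        constructor
        · rintro ⟨h3, h4⟩
          exact ⟨by rw [← hoff _ h4]; exact h3, h4⟩
        · rintro ⟨h3, h4⟩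
          exact ⟨by rw [hoff _ h4]; exact h3, h4⟩
      have hfin : {p | p ∈ Br T E S ∧ p.1 ≠ g}.Finite := ihf.subset (fun p hp => hp.1)
      have hsp1 := br_split T E S g hfin
      have hsp2 := br_split T E (insert a S) g (by rw [hoff2]; exact hfin)
      rw [hoff2] at hsp2
      refine ⟨hsp2.1, ?_⟩
      -- at the gate
      have hd1 : dirs T E {a} g = {δ} := by
        ext d
        rw [mem_dirs, Finset.mem_singleton]
        constructor
        · rintro ⟨b1, hb1, h5⟩
          rw [Finset.mem_singleton] at hb1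
          subst hb1
          rw [hδ] at h5
          exact (Option.some.inj h5).symm
        · rintro rfl
          exact ⟨a, Finset.mem_singleton_self a, hδ⟩
      have hd2 : δ ∉ dirs T E S g := by
        intro h3
        obtain ⟨b1, hb1, h4⟩ := mem_dirs.1 h3
        exact (hS b1 hb1).2 h4
      have hd3 : 2 ≤ (dirs T E S g).card := by
        obtain ⟨x, hx⟩ := Option.ne_none_iff_exists'.1 (hS b hb).1
        obtain ⟨y, hy⟩ := Option.ne_none_iff_exists'.1 (hS b' hb').1
        have hxy : x ≠ y := by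
          rintro rfl
          exact hbb (hx.trans hy.symm)
        exact Finset.one_lt_card.2 ⟨x, mem_dirs.2 ⟨b, hb, hx⟩, y, mem_dirs.2 ⟨b', hb', hy⟩, hxy⟩
      have hd4 : (dirs T E (insert a S) g).card = (dirs T E S g).card + 1 := by
        rw [dirs_insert, hd1, Finset.singleton_union, Finset.card_insert_of_notMem hd2]
      have h5 := card_mid _ hd3
      have h6 := card_mid (dirs T E (insert a S) g) (by omega)
      have h7 := hsp1.2
      have h8 := hsp2.2
      omega
    · have h3 : Br T E (insert a S) = ∅ := by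
        rw [Set.eq_empty_iff_forall_notMem]
        intro p hp
        have h4 : p.2 ∈ (mid (dirs T E (insert a S) p.1) : Set (Fin n)) := by
          rw [← mids_eq]
          exact hp
        have h5 : (dirs T E (insert a S) p.1).card ≤ 2 := by
          have h6 : dirs T E (insert a S) p.1 ⊆
              (insert a S).biUnion (fun b => dirs T E {b} p.1) := by
            intro d hd
            obtain ⟨b1, hb1, h7⟩ := mem_dirs.1 hd
            exact Finset.mem_biUnion.2 ⟨b1, hb1, mem_dirs.2 ⟨b1, Finset.mem_singleton_self _, h7⟩⟩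
          have h7 : ∀ b ∈ insert a S, (dirs T E {b} p.1).card ≤ 1 := by
            intro b _
            exact dirs_same T E {b} p.1 (by
              intro b1 hb b' hb'
              rw [Finset.mem_singleton] at hb hb'
              rw [hb, hb'])
          have h8 := Finset.card_biUnion_le_card_mul (insert a S) (fun b => dirs T E {b} p.1) 1 h7
          have h9 := Finset.card_le_card h6
          omega
        rw [mid_small _ h5] at h4
        exact absurd h4 (by simp)
      rw [h3]
      refine ⟨Set.finite_empty, ?_⟩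
      rw [Set.ncard_empty]
      omega

end Pool.Agent.H38.BPQ
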