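import Pool.Agent.H55.BQ.Targets

/-!
# MP_bacf0e_co, row KC (board bpq): common branches of two stars in a lift
-/

set_option autoImplicit false

namespace Pool.Agent.H38.BPQ

open Pool.Agent.H55.BP Pool.Agent.H55.BQ Finset

theorem mids_mono {n : ℕ} (T : LT n) {ι : Type} (E : ι → T.V) {S S' : Finset ι} (h : S' ⊆ S)
    (g : T.V) : mids T E S' g ⊆ mids T E S g := by
  rintro ρ ⟨a, ha, b, hb, c, hc, x, y, h1, h2, h3, h4, h5⟩
  exact ⟨a, h ha, b, h hb, c, h hc, x, y, h1, h2, h3, h4, h5⟩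

theorem strictMono3 {n : ℕ} (x y z : Fin n) (h1 : x < y) (h2 : y < z) : StrictMono ![x, y, z] := by
  intro i j hij
  fin_cases i <;> fin_cases j <;> simp_all
  exact lt_trans h1 h2

theorem pf_KC (hDC : T_DC) (hBRC : T_BRC) (hDKD : T_DKD) : T_KC := by
  intro n _ T ι _ _ Y N κ M hn hM hG hfin hspi hdir u v h huv
  classical
  set E : ι → T.V := fun e => Y.c T N e (κ e + M * N) with hE
  set Rh : Set ((ι × ι) × (ℝ × ℝ)) :=
    {p | p ∈ Y.recs ∧ Y.b p.1.1 = u ∧ Y.b p.1.2 = v ∧ Y.lift T N p h.h} with hRh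
  have hRf : Rh.Finite := hfin.subset (fun p hp => hp.1)
  have hlegs : ∀ (w : ℕ) (e : ι), e ∈ Y.legs w ↔ Y.b e = w := by
    intro w e
    simp [Sys.legs]
  set X : Finset ι := (Y.legs u).filter (fun e => ∃ p ∈ Rh, p.1.1 = e) with hX
  have hXs : X ⊆ Y.legs u := Finset.filter_subset _ _
  have hXc : X.card ≤ Rh.ncard := by
    have h1 : (X : Set ι) ⊆ (fun p : (ι × ι) × (ℝ × ℝ) => p.1.1) '' Rh := by
      intro e he
      obtain ⟨p, hp, hpe⟩ := (Finset.mem_filter.1 (Finset.mem_coe.1 he)).2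
      exact ⟨p, hp, hpe⟩
    calc X.card = (X : Set ι).ncard := (Set.ncard_coe_finset X).symm
      _ ≤ _ := Set.ncard_le_ncard h1 (hRf.image _)
      _ ≤ _ := Set.ncard_image_le hRf
  set S' : Finset ι := Y.legs u \ X with hS'
  have hS's : S' ⊆ Y.legs u := Finset.sdiff_subset
  have hS'c : S'.card = (Y.legs u).card - X.card := Finset.card_sdiff_of_subset hXs
  -- separation
  have hsep : ∀ e ∈ S', ∀ f ∈ Y.legs v, Y.sep T N e f h.h := by
    intro e he f hf k l hc
    by_contra hlt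
    rw [not_lt] at hlt
    have hbe : Y.b e = u := (hlegs u e).1 (hS's he)
    have hbf : Y.b f = v := (hlegs v f).1 hf
    rcases hG.close e f h k l hc hlt with ⟨h1, h2⟩ | ⟨s, t, h1, h2⟩
    · exact huv ⟨by rw [← hbe, ← hbf]; exact h1, h2⟩
    · have : e ∈ X := Finset.mem_filter.2 ⟨hS's he, ((e, f), (s, t)), ⟨h1, hbe, hbf, h2⟩, rfl⟩
      exact (Finset.mem_sdiff.1 he).2 this
  -- no common branch
  have hno : ∀ p ∈ Br T E S', ¬ ∃ q ∈ Br T E (Y.legs v), h.h q.1 = p.1 ∧ q.2 = p.2 := by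
    rintro ⟨g, ρ⟩ hp ⟨⟨g', ρ'⟩, hq, hq1, hq2⟩
    simp only at hq1 hq2
    subst hq2
    obtain ⟨a, ha, b, hb, c, hc, x, y, h1, h2, h3, h4, h5⟩ := hp
    obtain ⟨a', ha', b', hb', c', hc', x', y', h1', h2', h3', h4', h5'⟩ := hq
    simp only at h1 h2 h3 h4 h5 h1' h2' h3' h4' h5'
    set e : Fin 3 → ι := ![a, b, c] with he
    set f : Fin 3 → ι := ![a', b', c'] with hf
    set d : Fin 3 → Fin n := ![x, ρ', y] with hd
    set d' : Fin 3 → Fin n := ![x', ρ', y'] with hd'
    have hdm : StrictMono d := strictMono3 _ _ _ h4 h5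
    have hdm' : StrictMono d' := strictMono3 _ _ _ h4' h5'
    have heS : ∀ i, e i ∈ S' := by
      intro i
      fin_cases i
      · exact ha
      · exact hb
      · exact hc
    have hfS : ∀ i, f i ∈ Y.legs v := by
      intro i
      fin_cases i
      · exact ha'
      · exact hb'
      · exact hc'
    have hde : ∀ i, T.dir g (E (e i)) = some (d i) := by
      intro i
      fin_cases i
      · exact h1
      · exact h2
      · exact h3
    have hdf : ∀ i, T.dir g' (E (f i)) = some (d' i) := by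
      intro i
      fin_cases i
      · exact h1'
      · exact h2'
      · exact h3'
    have hdf2 : ∀ i, T.dir g (h.h (E (f i))) = some (d' i) := by
      intro i
      rw [← hq1, (hDKD T h).2, hdf i]
    have hbe : ∀ i, Y.b (e i) = u := fun i => (hlegs u _).1 (hS's (heS i))
    have hbf : ∀ i, Y.b (f i) = v := fun i => (hlegs v _).1 (hfS i)
    have hei : ∀ i j, i ≠ j → e i ≠ e j := by
      intro i j hij heq
      have h6 : d i = d j := by
        have h7 := hde i
        rw [heq, hde j] at h7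
        exact (Option.some.inj h7).symm
      exact hij (hdm.injective h6)
    have hfi : ∀ i j, i ≠ j → f i ≠ f j := by
      intro i j hij heq
      have h6 : d' i = d' j := by
        have h7 := hdf i
        rw [heq, hdf j] at h7
        exact (Option.some.inj h7).symm
      exact hij (hdm'.injective h6)
    exact hDC T Y N hn hG.fine e f h (fun i => κ (e i)) (fun i => κ (f i)) M hM
      (fun i j => by rw [hbe, hbe]) (fun i j => by rw [hbf, hbf])
      (fun i j => hsep _ (heS i) _ (hfS j)) (fun i => hspi _) (fun i => hspi _)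
      (fun i j hij => hdir _ _ (hei i j hij) (by rw [hbe, hbe]))
      (fun i j hij => hdir _ _ (hfi i j hij) (by rw [hbf, hbf]))
      g d d' hdm hdm' rfl hde hdf2
  -- counting
  have hbr : ∀ S : Finset ι, S ⊆ Y.legs u → (Br T E S).Finite ∧ (Br T E S).ncard = S.card - 2 := by
    intro S hS
    refine hBRC T E S Y.wt (fun b hb b' hb' hbb => ?_)
    exact hdir b b' hbb (by rw [(hlegs u b).1 (hS hb), (hlegs u b').1 (hS hb')])
  obtain ⟨hf1, hn1⟩ := hbr (Y.legs u) (Finset.Subset.refl _)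
  obtain ⟨hf2, hn2⟩ := hbr S' hS's
  have hsub : Br T E S' ⊆ Br T E (Y.legs u) := fun p hp => mids_mono T E hS's p.1 hp
  have hsub2 : {p | p ∈ Br T E (Y.legs u) ∧
      ∃ q ∈ Br T E (Y.legs v), h.h q.1 = p.1 ∧ q.2 = p.2} ⊆ Br T E (Y.legs u) \ Br T E S' := by
    rintro p ⟨hp1, hp2⟩
    exact ⟨hp1, fun hp3 => hno p hp3 hp2⟩
  have h8 := Set.ncard_le_ncard hsub2 (hf1.subset Set.sdiff_subset)
  have h9 : (Br T E (Y.legs u) \ Br T E S').ncard = (Br T E (Y.legs u)).ncard - (Br T E S').ncard :=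
    Set.ncard_sdiff hsub hf2
  have h10 : X.card ≤ (Y.legs u).card := Finset.card_le_card hXs
  omega

end Pool.Agent.H38.BPQ
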